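import Pool.Agent.V5helper49.LR.Stm2

/-! # LR-GAP: Borel-Cantelli for the gaps of the model -/

set_option autoImplicit false

namespace Pool.Agent.V5helper94.LR

open Finset MeasureTheory ProbabilityTheory Filter
open scoped ENNReal
open Pool.Agent.V5helper42.RS (model)
open Pool.Agent.V5helper49.LR

universe u

theorem ae_one (h : S_GAPP.{u}) (ε : ℝ) (hε : 0 < ε) (hε1 : ε ≤ 1) {Ω : Type u} [MeasurableSpace Ω]
    (μ : Measure Ω) [IsProbabilityMeasure μ] (a : ℕ → Ω → ℕ) (ha : ∀ p, Measurable (a p))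
    (hi : iIndepFun a μ) (hu : ∀ p : ℕ, p.Prime → ∀ r < p, μ {ω | a p ω = r} = (p : ℝ≥0∞)⁻¹) :
    ∀ᵐ ω ∂μ, ∀ᶠ m : ℕ in atTop, ∃ n : ℕ, m < n ∧ (n : ℝ) ≤ m + Real.log m ^ (2 + ε) ∧
      n ∈ model fun p => a p ω := by
  obtain ⟨N, hN⟩ := eventually_atTop.1 (h ε hε hε1)
  set E : ℕ → Set Ω := fun m => {ω | N ≤ m ∧ ∀ n : ℕ, m < n → (n : ℝ) ≤ m + Real.log m ^ (2 + ε) →
    n ∉ model fun p => a p ω} with hE
  have hle : ∀ m, μ (E m) ≤ ENNReal.ofReal (1 / (m : ℝ) ^ 2) := by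
    intro m
    by_cases hm : N ≤ m
    · refine le_trans (measure_mono ?_) (hN m hm μ a ha hi hu)
      intro ω hω
      exact hω.2
    · have : E m = ∅ := by
        ext ω
        simp [hE, hm]
      rw [this]
      simp
  have hsum : Summable (fun m : ℕ => 1 / (m : ℝ) ^ 2) := Real.summable_one_div_nat_pow.2 (by norm_num)
  have hfin : ∑' m, μ (E m) ≠ ∞ := by
    refine ne_top_of_le_ne_top ?_ (ENNReal.tsum_le_tsum hle)
    rw [← ENNReal.ofReal_tsum_of_nonneg (fun m => by positivity) hsum]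
    exact ENNReal.ofReal_ne_top
  filter_upwards [ae_eventually_notMem hfin] with ω hω
  filter_upwards [hω, eventually_ge_atTop N] with m hm hNm
  by_contra hcon
  push Not at hcon
  exact hm ⟨hNm, fun n h1 h2 => hcon n h1 h2⟩

theorem t_GAP (h : S_GAPP.{u}) : S_GAP.{u} := by
  intro Ω _ μ _ a ha hi hu
  have hall : ∀ᵐ ω ∂μ, ∀ i : ℕ, ∀ᶠ m : ℕ in atTop, ∃ n : ℕ, m < n ∧
      (n : ℝ) ≤ m + Real.log m ^ (2 + 1 / ((i : ℝ) + 1)) ∧ n ∈ model fun p => a p ω := by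
    rw [ae_all_iff]
    intro i
    refine ae_one h _ (by positivity) ?_ μ a ha hi hu
    rw [div_le_one (by positivity)]
    have : (0 : ℝ) ≤ i := Nat.cast_nonneg i
    linarith
  filter_upwards [hall] with ω hω
  intro ε hε
  obtain ⟨i, hi'⟩ := exists_nat_one_div_lt hε
  have hlog : ∀ᶠ m : ℕ in atTop, (1 : ℝ) ≤ Real.log m :=
    (Real.tendsto_log_atTop.comp tendsto_natCast_atTop_atTop).eventually_ge_atTop 1
  filter_upwards [hω i, hlog] with m hm hm1
  obtain ⟨n, h1, h2, h3⟩ := hm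
  refine ⟨n, h1, h2.trans ?_, h3⟩
  have := Real.rpow_le_rpow_of_exponent_le hm1 (show 2 + 1 / ((i : ℝ) + 1) ≤ 2 + ε by linarith)
  linarith

end Pool.Agent.V5helper94.LR
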